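import Pool.Agent.helper15.LC.Spec

/-!
# Project lc (MP_7c3fb3_pr), row EXM: exponential moment of the block magnetisation with plus boundary condition
-/

open Finset Filter Topology

namespace CO

open CU

/-- the energy with a constant field on `B` -/
theorem EXM_hh {V : Type} [Fintype V] [DecidableEq V] (K : V → V → ℝ) (B : Finset V) (c : ℝ) (σ : V → Bool) :
    CWM.HH K (fun x => if x ∈ B then c else 0) σ = CWM.HH K (fun _ => 0) σ + c * ∑ x ∈ B, sg (σ x) := by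
  unfold CWM.HH
  simp only [zero_mul, sum_const_zero, add_zero, ite_mul]
  rw [Finset.sum_ite_mem, univ_inter, Finset.mul_sum]

/-- the exponential moment is bounded by the magnetisation in the field -/
theorem EXM_a (hLZ : LZ_stmt) {V : Type} [Fintype V] [DecidableEq V] (K : V → V → ℝ) (A B : Finset V) (a : ℝ)
    (ha : 0 < a) (hB : 0 < (B.card : ℝ)) (u : ℝ)
    (hu : ∀ x ∈ B, exA K (fun x => if x ∈ B then a / (B.card : ℝ) else 0) A (fun σ => sg (σ x)) ≤ u) :
    exA K (fun _ => 0) A (fun σ => Real.exp (a * ((∑ x ∈ B, sg (σ x)) / (B.card : ℝ)))) ≤ Real.exp (a * u) := by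
  classical
  have hpl : (fun _ => true : V → Bool) ∈ pl A := by simp [pl]
  have : Nonempty {σ : V → Bool // σ ∈ pl A} := ⟨⟨fun _ => true, hpl⟩⟩
  obtain ⟨-, h⟩ := hLZ {σ : V → Bool // σ ∈ pl A} (fun σ => CWM.HH K (fun _ => 0) σ.1)
    (fun σ => (∑ x ∈ B, sg (σ.1 x)) / (B.card : ℝ))
  have h1 := (h a ha.le).2
  have e1 : ∑ x : {σ : V → Bool // σ ∈ pl A}, Real.exp (CWM.HH K (fun _ => 0) x.1 + a * ((∑ y ∈ B, sg (x.1 y)) / (B.card : ℝ))) =
      ∑ σ ∈ pl A, Real.exp (CWM.HH K (fun _ => 0) σ + a * ((∑ y ∈ B, sg (σ y)) / (B.card : ℝ))) :=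
    Finset.sum_coe_sort (pl A) (fun σ => Real.exp (CWM.HH K (fun _ => 0) σ + a * ((∑ y ∈ B, sg (σ y)) / (B.card : ℝ))))
  have e2 : ∑ x : {σ : V → Bool // σ ∈ pl A}, Real.exp (CWM.HH K (fun _ => 0) x.1) =
      ∑ σ ∈ pl A, Real.exp (CWM.HH K (fun _ => 0) σ) :=
    Finset.sum_coe_sort (pl A) (fun σ => Real.exp (CWM.HH K (fun _ => 0) σ))
  have e3 : ∑ x : {σ : V → Bool // σ ∈ pl A}, Real.exp (CWM.HH K (fun _ => 0) x.1 + a * ((∑ y ∈ B, sg (x.1 y)) / (B.card : ℝ))) *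
        ((∑ y ∈ B, sg (x.1 y)) / (B.card : ℝ)) =
      ∑ σ ∈ pl A, Real.exp (CWM.HH K (fun _ => 0) σ + a * ((∑ y ∈ B, sg (σ y)) / (B.card : ℝ))) *
        ((∑ y ∈ B, sg (σ y)) / (B.card : ℝ)) :=
    Finset.sum_coe_sort (pl A) (fun σ => Real.exp (CWM.HH K (fun _ => 0) σ + a * ((∑ y ∈ B, sg (σ y)) / (B.card : ℝ))) *
        ((∑ y ∈ B, sg (σ y)) / (B.card : ℝ)))
  rw [e1, e2, e3] at h1
  have hH : ∀ σ : V → Bool, CWM.HH K (fun _ => 0) σ + a * ((∑ y ∈ B, sg (σ y)) / (B.card : ℝ)) =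
      CWM.HH K (fun x => if x ∈ B then a / (B.card : ℝ) else 0) σ := by
    intro σ
    rw [EXM_hh]
    ring
  have hZ : 0 < ∑ σ ∈ pl A, Real.exp (CWM.HH K (fun x => if x ∈ B then a / (B.card : ℝ) else 0) σ) :=
    Finset.sum_pos (fun σ _ => Real.exp_pos _) ⟨_, hpl⟩
  have hZ0 : 0 < ∑ σ ∈ pl A, Real.exp (CWM.HH K (fun _ => 0) σ) :=
    Finset.sum_pos (fun σ _ => Real.exp_pos _) ⟨_, hpl⟩
  -- the average in the field
  have h2 : (∑ σ ∈ pl A, Real.exp (CWM.HH K (fun x => if x ∈ B then a / (B.card : ℝ) else 0) σ) *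
        ((∑ y ∈ B, sg (σ y)) / (B.card : ℝ))) /
      ∑ σ ∈ pl A, Real.exp (CWM.HH K (fun x => if x ∈ B then a / (B.card : ℝ) else 0) σ) ≤ u := by
    have h3 : (∑ σ ∈ pl A, Real.exp (CWM.HH K (fun x => if x ∈ B then a / (B.card : ℝ) else 0) σ) *
        ((∑ y ∈ B, sg (σ y)) / (B.card : ℝ))) /
        ∑ σ ∈ pl A, Real.exp (CWM.HH K (fun x => if x ∈ B then a / (B.card : ℝ) else 0) σ) =
        (∑ x ∈ B, exA K (fun x => if x ∈ B then a / (B.card : ℝ) else 0) A (fun σ => sg (σ x))) / (B.card : ℝ) := by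
      unfold exA
      rw [← Finset.sum_div, Finset.sum_comm, div_div]
      have : ∑ σ ∈ pl A, Real.exp (CWM.HH K (fun x => if x ∈ B then a / (B.card : ℝ) else 0) σ) *
          ((∑ y ∈ B, sg (σ y)) / (B.card : ℝ)) =
          (∑ σ ∈ pl A, ∑ y ∈ B, Real.exp (CWM.HH K (fun x => if x ∈ B then a / (B.card : ℝ) else 0) σ) * sg (σ y)) / (B.card : ℝ) := by
        rw [Finset.sum_div]
        refine Finset.sum_congr rfl fun σ _ => ?_
        rw [← Finset.mul_sum]
        ring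
      rw [this, div_div, mul_comm (B.card : ℝ)]
    rw [h3, div_le_iff₀ hB]
    calc ∑ x ∈ B, exA K (fun x => if x ∈ B then a / (B.card : ℝ) else 0) A (fun σ => sg (σ x)) ≤ ∑ _x ∈ B, u :=
          Finset.sum_le_sum hu
      _ = u * (B.card : ℝ) := by rw [Finset.sum_const, nsmul_eq_mul, mul_comm]
  simp only [hH] at h1
  have h4 : exA K (fun _ => 0) A (fun σ => Real.exp (a * ((∑ x ∈ B, sg (σ x)) / (B.card : ℝ)))) =
      (∑ σ ∈ pl A, Real.exp (CWM.HH K (fun x => if x ∈ B then a / (B.card : ℝ) else 0) σ)) /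
        ∑ σ ∈ pl A, Real.exp (CWM.HH K (fun _ => 0) σ) := by
    unfold exA
    congr 1
    refine Finset.sum_congr rfl fun σ _ => ?_
    rw [← Real.exp_add, hH]
  rw [h4, ← Real.exp_log (div_pos hZ hZ0), Real.log_div hZ.ne' hZ0.ne']
  refine Real.exp_le_exp.mpr (h1.trans ?_)
  exact mul_le_mul_of_nonneg_left h2 ha.le

/-- **EXM**. -/
theorem EXM (hGKW : GKW_stmt) (hUPA : UPA_stmt) (hLZ : LZ_stmt) (hMSP : MSP_stmt) (hVF : CU.VF_stmt) (hCBX : CBX_stmt) :
    EXM_stmt := by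
  intro d b a κ hd hb ha hκ
  obtain ⟨L, hL⟩ := (hMSP d).2.2.1 b (κ / 2) hb (by positivity)
  have hL := hL L le_rfl
  -- choice of `r₀`
  have hlim : Tendsto (fun r : ℕ => 2 * (Real.exp (6 * (a / (2 * (r : ℝ) + 1) ^ d) * (2 * (L : ℝ) + 1) ^ d) - 1)) atTop (𝓝 0) := by
    have h1 : Tendsto (fun r : ℕ => (2 * (r : ℝ) + 1) ^ d) atTop atTop := by
      have h0 : Tendsto (fun r : ℕ => 2 * (r : ℝ) + 1) atTop atTop :=
        tendsto_atTop_add_const_right _ _ (tendsto_natCast_atTop_atTop.const_mul_atTop (by norm_num : (0 : ℝ) < 2))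
      exact (tendsto_pow_atTop (by omega)).comp h0
    have h2 : Tendsto (fun r : ℕ => 6 * (a / (2 * (r : ℝ) + 1) ^ d) * (2 * (L : ℝ) + 1) ^ d) atTop (𝓝 0) := by
      have h3 := ((h1.const_div_atTop a).const_mul 6).mul_const ((2 * (L : ℝ) + 1) ^ d)
      simpa using h3
    have h4 := (Real.continuous_exp.tendsto 0).comp h2
    have h5 := (h4.sub_const 1).const_mul 2
    simpa using h5
  obtain ⟨r₀, hr₀⟩ := (hlim.eventually (gt_mem_nhds (by positivity : (0 : ℝ) < κ / 2))).exists_forall_of_atTop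
  refine ⟨r₀, fun r hr => ⟨L + r, fun M hM => ?_⟩⟩
  filter_upwards [eventually_ge_atTop (2 * L), eventually_ge_atTop (2 * r + 1)] with n hn1 hn2
  intro K' hK0 hK1
  have : NeZero (n + 3) := ⟨by omega⟩
  have hcard : ((Box r (0 : Site d (n + 3))).card : ℝ) = (2 * (r : ℝ) + 1) ^ d := by
    rw [(hCBX d (n + 3) r).1 (by omega)]
    push_cast
    ring
  have hcpos : 0 < ((Box r (0 : Site d (n + 3))).card : ℝ) := by rw [hcard]; positivity
  have key : ∀ x ∈ Box r (0 : Site d (n + 3)), exA K' (fun x => if x ∈ Box r (0 : Site d (n + 3)) then a / ((Box r (0 : Site d (n + 3))).card : ℝ) else 0)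
      (univ \ Box M (0 : Site d (n + 3))) (fun σ => sg (σ x)) ≤ ms d b + κ := by
    intro x hx
    set c : ℝ := a / ((Box r (0 : Site d (n + 3))).card : ℝ) with hc
    have hc0 : 0 ≤ c := by positivity
    have g1 := (hGKW (Site d (n + 3)) K' (KT b fun _ => 0) (fun x => if x ∈ Box r (0 : Site d (n + 3)) then c else 0) (fun _ => c) hK0
      (fun x => by split_ifs <;> simp [hc0]) hK1 (fun x => by split_ifs <;> simp [hc0])
      (univ \ Box M (0 : Site d (n + 3))) (univ \ Box M (0 : Site d (n + 3))) (Finset.Subset.refl _) x x).1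
    refine g1.trans ?_
    have g2 := (hUPA d (n + 3) L (by omega) b c c (fun _ => 0) hb hc0 (fun _ => le_rfl) (by simpa using hc0) le_rfl).1
      (univ \ Box M (0 : Site d (n + 3))) x ?_
    · refine g2.trans ?_
      rw [hVF d b L n hn1]
      have g3 : CS.ML d b L = gam b 0 (zBox L (0 : ZSite d)) (fun σ => sg (σ 0)) (fun _ => true) := rfl
      rw [← g3]
      have g4 := hr₀ r hr
      rw [hc, hcard]
      linarith
    · intro y hy hxy
      rw [Finset.mem_sdiff] at hy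
      apply hy.2
      unfold Box at hx ⊢
      rw [Finset.mem_filter] at hx ⊢
      refine ⟨mem_univ _, fun k => ?_⟩
      have hx1 := hx.2 k
      have hy1 := hxy k
      have : y k - (0 : Site d (n + 3)) k = (y k - x k) + (x k - (0 : Site d (n + 3)) k) := by ring
      rw [this]
      refine (ZMod.natAbs_valMinAbs_add_le _ _).trans ?_
      omega
  exact EXM_a hLZ K' (univ \ Box M (0 : Site d (n + 3))) (Box r (0 : Site d (n + 3))) a ha hcpos (ms d b + κ) key

end CO
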